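import Pool.Agent.P.MP_61a291_nt.Final

namespace Pool.Agent.Results.MP_61a291_nt.CubefreeOdd

/-- Sum of the exponential divisors of `n`: the product over primes `p ∣ n` of
`∑_{b ∣ a} p ^ b`, where `a` is the exponent of `p` in `n`. -/
def sigmaE (n : ℕ) : ℕ := ∏ p ∈ n.primeFactors, ∑ b ∈ (n.factorization p).divisors, p ^ b

theorem result (n : ℕ) (hn : 0 < n) (hpow : ∀ p : ℕ, p.Prime → p ∣ n → p ^ 2 ∣ n)
    (hcube : ∀ p : ℕ, p.Prime → p ≠ 2 → ¬ p ^ 3 ∣ n) :
    sigmaE n = 2 * n ↔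
      n = 36 ∨ n = 1800 ∨ n = 17424 ∨ n = 4769856 ∨ n = 238492800 ∨ n = 54531590400 := by
  constructor
  · exact Pool.Agent.P.MP_61a291_nt.classify n hn hpow hcube
  · rintro (rfl | rfl | rfl | rfl | rfl | rfl) <;>
    · simp only [sigmaE, Nat.primeFactors, ← Nat.primeFactorsList_count_eq,
        Nat.primeFactorsList_ofNat]
      decide +kernel

end Pool.Agent.Results.MP_61a291_nt.CubefreeOdd
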